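import Pool.Agent.H982R3.PS

/-! Evaluation of power series with coefficients in `ℝ≥0∞` at a point of `ℝ≥0∞`. -/

set_option autoImplicit false

namespace Pool.Agent.K1H6.SP

open scoped ENNReal
open PowerSeries H982

/-- evaluation of the series `f` at `z` -/
noncomputable def ev (z : ℝ≥0∞) (f : PS) : ℝ≥0∞ := ∑' n, coeff n f * z ^ n

theorem ev_mono {z : ℝ≥0∞} {f g : PS} (h : f ≤ g) : ev z f ≤ ev z g :=
  ENNReal.tsum_le_tsum fun n => mul_le_mul_left (h n) _

theorem ev_mono' (z : ℝ≥0∞) : Monotone (ev z) := fun _ _ h => ev_mono h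

theorem ev_mono_arg {z z' : ℝ≥0∞} (h : z ≤ z') (f : PS) : ev z f ≤ ev z' f :=
  ENNReal.tsum_le_tsum fun n => mul_le_mul_right (pow_le_pow_left' h n) _

@[simp] theorem ev_zero (z : ℝ≥0∞) : ev z 0 = 0 := by simp [ev]

theorem ev_add (z : ℝ≥0∞) (f g : PS) : ev z (f + g) = ev z f + ev z g := by
  unfold ev
  rw [← ENNReal.tsum_add]
  congr 1
  ext1 n
  rw [map_add, add_mul]

/-- evaluation of a formal sum -/
theorem ev_fs {ι : Type*} (z : ℝ≥0∞) (F : ι → PS) : ev z (fs F) = ∑' i, ev z (F i) := by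
  unfold ev
  rw [ENNReal.tsum_comm]
  congr 1
  ext1 n
  rw [coeff_fs, ENNReal.tsum_mul_right]

theorem ev_mul (z : ℝ≥0∞) (f g : PS) : ev z (f * g) = ev z f * ev z g := by
  unfold ev
  rw [← ENNReal.tsum_mul_right]
  simp_rw [← ENNReal.tsum_mul_left]
  rw [← ENNReal.tsum_prod (f := fun i j => coeff i f * z ^ i * (coeff j g * z ^ j))]
  have h2 : ∀ n, coeff n (f * g) * z ^ n = ∑' p : {p : ℕ × ℕ // p.1 + p.2 = n},
      (coeff p.1.1 f * z ^ p.1.1 * (coeff p.1.2 g * z ^ p.1.2)) := by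
    intro n
    rw [PowerSeries.coeff_mul, Finset.sum_mul]
    have e : ∀ p ∈ Finset.HasAntidiagonal.antidiagonal n, coeff p.1 f * coeff p.2 g * z ^ n =
        coeff p.1 f * z ^ p.1 * (coeff p.2 g * z ^ p.2) := by
      intro p hp
      rw [Finset.HasAntidiagonal.mem_antidiagonal] at hp
      rw [← hp, pow_add]
      ring
    rw [Finset.sum_congr rfl e]
    rw [← Finset.tsum_subtype (Finset.HasAntidiagonal.antidiagonal n)
      (fun p => coeff p.1 f * z ^ p.1 * (coeff p.2 g * z ^ p.2))]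
    let E : {p : ℕ × ℕ // p.1 + p.2 = n} ≃ {p // p ∈ Finset.HasAntidiagonal.antidiagonal n} :=
      Equiv.subtypeEquivRight fun p => Finset.HasAntidiagonal.mem_antidiagonal.symm
    exact (E.tsum_eq (fun p => coeff p.1.1 f * z ^ p.1.1 * (coeff p.1.2 g * z ^ p.1.2))).symm
  simp_rw [h2]
  rw [← ENNReal.tsum_sigma (β := fun n => {p : ℕ × ℕ // p.1 + p.2 = n}) (f := fun n p =>
    coeff p.1.1 f * z ^ p.1.1 * (coeff p.1.2 g * z ^ p.1.2))]
  exact (Equiv.sigmaFiberEquiv (fun p : ℕ × ℕ => p.1 + p.2)).tsum_eq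
    (fun p => coeff p.1 f * z ^ p.1 * (coeff p.2 g * z ^ p.2))

theorem ev_cst (z a : ℝ≥0∞) : ev z (cst a) = a := by
  unfold ev cst
  rw [tsum_eq_single 0]
  · simp
  · intro n hn
    rw [PowerSeries.coeff_C, if_neg hn, zero_mul]

@[simp] theorem ev_one (z : ℝ≥0∞) : ev z 1 = 1 := by
  rw [← cst_one, ev_cst]

theorem ev_cst_mul (z a : ℝ≥0∞) (f : PS) : ev z (cst a * f) = a * ev z f := by
  rw [ev_mul, ev_cst]

theorem ev_ii (z : ℝ≥0∞) (p : Prop) : ev z (ii p) = ind p := ev_cst z _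

theorem ev_ii_mul (z : ℝ≥0∞) (p : Prop) (f : PS) : ev z (ii p * f) = ind p * ev z f :=
  ev_cst_mul z _ f

theorem ev_X (z : ℝ≥0∞) : ev z (PowerSeries.X : PS) = z := by
  unfold ev
  rw [tsum_eq_single 1]
  · simp
  · intro n hn
    rw [PowerSeries.coeff_X, if_neg hn, zero_mul]

/-- evaluation as a homomorphism of semirings -/
noncomputable def evHom (z : ℝ≥0∞) : PS →+* ℝ≥0∞ where
  toFun := ev z
  map_one' := ev_one z
  map_mul' := ev_mul z
  map_zero' := ev_zero z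
  map_add' := ev_add z

theorem evHom_apply (z : ℝ≥0∞) (f : PS) : evHom z f = ev z f := rfl

theorem ev_pow (z : ℝ≥0∞) (f : PS) (n : ℕ) : ev z (f ^ n) = ev z f ^ n := map_pow (evHom z) f n

theorem ev_sum {ι : Type*} (z : ℝ≥0∞) (s : Finset ι) (F : ι → PS) :
    ev z (∑ i ∈ s, F i) = ∑ i ∈ s, ev z (F i) := map_sum (evHom z) F s

theorem ev_prod {ι : Type*} (z : ℝ≥0∞) (s : Finset ι) (F : ι → PS) :
    ev z (∏ i ∈ s, F i) = ∏ i ∈ s, ev z (F i) := map_prod (evHom z) F s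

theorem ev_natCast (z : ℝ≥0∞) (n : ℕ) : ev z (n : PS) = n := map_natCast (evHom z) n

theorem ev_xl (z : ℝ≥0∞) (w : List St) : ev z (xl w) = z ^ w.length := by
  unfold xl
  rw [ev_pow, ev_X]

/-- evaluation of a formal sum over words -/
theorem ev_words {ι : Type*} (z : ℝ≥0∞) (P : ι → Prop) (w : ι → List St) :
    ev z (fs fun i => ii (P i) * xl (w i)) = ∑' i, ind (P i) * z ^ (w i).length := by
  rw [ev_fs]
  simp_rw [ev_ii_mul, ev_xl]

theorem coeff_le_ev (z : ℝ≥0∞) (f : PS) (n : ℕ) : coeff n f * z ^ n ≤ ev z f :=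
  ENNReal.le_tsum (f := fun n => coeff n f * z ^ n) n

theorem ev_eq_zero {z : ℝ≥0∞} (hz : z ≠ 0) {f : PS} (h : ev z f = 0) : f = 0 := by
  unfold ev at h
  rw [ENNReal.tsum_eq_zero] at h
  ext n
  have h1 := h n
  rw [mul_eq_zero] at h1
  rcases h1 with h1 | h1
  · rw [h1, map_zero]
  · exact absurd h1 (pow_ne_zero n hz)

/-- suprema of truncations: evaluation is the supremum of the finite sums -/
theorem ev_eq_iSup (z : ℝ≥0∞) (f : PS) :
    ev z f = ⨆ N : ℕ, ∑ n ∈ Finset.range N, coeff n f * z ^ n :=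
  ENNReal.tsum_eq_iSup_nat

/-- a bound for all the partial sums is a bound for the evaluation -/
theorem ev_le_of_partial {z C : ℝ≥0∞} {f : PS}
    (h : ∀ N : ℕ, ∑ n ∈ Finset.range N, coeff n f * z ^ n ≤ C) : ev z f ≤ C := by
  rw [ev_eq_iSup]
  exact iSup_le h

end Pool.Agent.K1H6.SP
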