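/-!
# Notes (a comment only): the coupled, multi-scale Gronwall argument for half-plane walks at `z_c`

This is the part D (chains of bridges -> blocks -> Gronwall) of the plan for
`c_n <= mu^n n^K`.  It is a paper argument, nothing in this file is used anywhere.

Notation (everything is evaluated at `z_c = 1 / mu`, see `Pool/Agent/K1H3/SW/*`):
`U T` mass of the bridges of width `<= T`, `Lam w` mass of the irreducible bridges of width
`>= w`, `U T * Lam (T + 1) <= 1`.  `E W L R` : there are `u v` with `u ++ L`, `R ++ v` bridges of
width `>= W` and `NCg (u ++ L) (R ++ v)`.  For a scale `i` (widths in `[2^i, 2^(i+1))`) let `D_i`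
be a monotone sequence of thresholds with `c U (2^i) <= U D_i <= c1 U (2^i)`; `SS_i` (`PP_i`) the
words which are minimal suffixes (prefixes) of width `>= D_i` of bridges.  Their masses are `<= 1`.
A strand `b` of width `>= 2^i` is either `R ++ M ++ L` with `R` in `PP_i`, `L` in `SS_i` or
(type `u_i`) `X ++ k ++ Y`, `k` irreducible, `wd X, wd Y < D_i`.

Remark: the product over the scales of the one-scale chain sums is useless (a single strand of
scale `i` has mass `U (2^(i+1)) - U (2^i)`); the fold between scales must be used.

Inputs (all for one scale `i`, strands of the type `u_i` may have ANY width `>= 2^i`;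
`S_i f = sum over L in SS_i`, `P_i b = sum over R in PP_i with E (2^i) b R`,
`T_i f (b) = sum over g of type u_i with E b g of w(g) f(g)`, `V_i = U (2^i)`):
 (B1) `V_i * S_i P_i <= C`;
 (B2) `V_i * S_i (T_i^m P_i) <= C th^m`, `m >= 1`, `th < 1`;
 (B3) `S_i (T_i^m f) <= C th^m S_i f` for `m >= 2` and all `f` which decrease when the word is
      extended to the left.
(B2), (B3) follow by decoupling every inner fold at the dyadic scale of the wider of its two short
ends from the general double fold bound
 (B5) `sum over L in SS^T, X k Y, R in PP^T', wd X < T, wd Y < T', wd k >= w` is `<= C Lam w`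
for all `T, T' <= w` (two independent scales), its one-sided form (B4) and `U D_i * Lam <= c1`.

Recursion.  Let `F_k b` = sum over the chains following `b` with widths `<= k` (with the relation
`E (wd g) b g` between consecutive strands, so that `F_k (u ++ b) <= F_k b`), `h_i = S_i F_(2^(i+1)-1)`,
`e_i = S_i (sum_(m>=1) T_i^m F_(2^i-1))`.
 * `S_i f <= S_j f` for `j <= i` (the mass of `{u : u ++ L in SS_i}` is `<= 1` for `L` in `SS_j`).
 * inside one scale: `F_k b <= F_(2^i-1) b + V_i P_i(b) S_i F_k + T_i F_k (b)`; iterating in the
   runs of strands of type `u_i`: `F_k <= G F_(2^i-1) + V_i S_i(F_k) G P_i`, `G = sum T_i^m`.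
 * Gronwall in the exact width `l` of the strand following a cut one:
   `S_i F_k <= S_i (G F_(2^i-1)) (1 + C) + sum_(l <= k) a_l S_i F_(l-1)`, `sum_l a_l <= C^2 + C`,
   hence `h_i <= C' (h_(i-1) + e_i)`.
 * junctions: let the last strand `g = X k Y` of type `u_i` be followed by a strand of scale `j < i`.
   If `wd Y >= D_j` then `Y = Y' L`, `L` in `SS_j`, `Y'` free: `<= C h_j`.  If `wd Y < D_j <= wd X`
   then `X = R X'`, `X'` free and `k Y` in `SS_j`: `<= C 2^(i-j) h_j` (as `U (2^i) <= 2^(i-j) U (2^j)`).
   If both are `< D_j` then `g` is of type `u_j` and the fold is treated at the scale `j`: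
   `<= C h_j + e_j`.  So `e_i <= C (1 + h_(i-1)) + sum_(j<i) (C 2^(i-j) h_j + e_j)`.
 * both `h_i` and `e_i` grow at most geometrically, `F_N [] <= 1 + sum_i 2 V_i h_i <= N^K`.
Only one-scale statements are needed for the junctions; the losses `2^(i-j)` are harmless.
-/
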